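import Mathlib
import Pool.Agent.MP_ee90f2_an.Mg.Main

/-! The graph over a closed set `S` of a Lipschitz function that is a difference of two convex
functions on no interval contained in `S` is removable for convex functions. -/

namespace Pool.Agent.MP_ee90f2_an.S80

open Set Filter Topology MeasureTheory

/-- `g` is a difference of two convex functions on no interval contained in `S`. -/
def NDC (S : Set ℝ) (g : ℝ → ℝ) : Prop := ∀ a b : ℝ, a < b → Icc a b ⊆ S →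
  ¬ ∃ P Q : ℝ → ℝ, ConvexOn ℝ (Icc a b) P ∧ ConvexOn ℝ (Icc a b) Q ∧ ∀ x ∈ Icc a b, g x = P x - Q x

/-- The graph of `g` over `S`. -/
def Gr (S : Set ℝ) (g : ℝ → ℝ) : Set (ℝ × ℝ) := {p | p.1 ∈ S ∧ p.2 = g p.1}

theorem line_of_loc (G : ℝ → ℝ) (hG : Continuous G)
    (loc : ∀ w, ∃ δ > 0, ∀ s, 0 < s → s < δ → 2 * G w ≤ G (w - s) + G (w + s))
    (w₁ w₂ t : ℝ) (ht : t ∈ Icc (0:ℝ) 1) : G (w₁ + t * (w₂ - w₁)) ≤ (1 - t) * G w₁ + t * G w₂ := by
  by_cases hw : w₂ = w₁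
  · subst hw
    simp only [sub_self, mul_zero, add_zero]
    linarith
  have hd : 0 < |w₂ - w₁| := abs_pos.mpr (sub_ne_zero.mpr hw)
  have := chord_of_midpoint (fun t => G (w₁ + t * (w₂ - w₁))) (by fun_prop) (by
    intro x _ ε hε
    obtain ⟨δ, hδ, hloc⟩ := loc (w₁ + x * (w₂ - w₁))
    have hpos : 0 < min ε (δ / |w₂ - w₁|) := lt_min hε (by positivity)
    refine ⟨min ε (δ / |w₂ - w₁|) / 2, by positivity, by linarith [min_le_left ε (δ / |w₂ - w₁|)],
      ?_⟩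
    set s := min ε (δ / |w₂ - w₁|) / 2 with hs
    have hs0 : 0 < s := by positivity
    have hs1 : s * |w₂ - w₁| < δ := by
      have : s < δ / |w₂ - w₁| := by linarith [min_le_right ε (δ / |w₂ - w₁|)]
      rwa [lt_div_iff₀ hd] at this
    have := hloc (s * |w₂ - w₁|) (by positivity) hs1
    rcases abs_cases (w₂ - w₁) with ⟨h1, -⟩ | ⟨h1, -⟩
    · rw [h1] at this
      have e1 : w₁ + (x - s) * (w₂ - w₁) = w₁ + x * (w₂ - w₁) - s * (w₂ - w₁) := by ring
      have e2 : w₁ + (x + s) * (w₂ - w₁) = w₁ + x * (w₂ - w₁) + s * (w₂ - w₁) := by ring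
      simp only [e1, e2]
      exact this
    · rw [h1] at this
      have e1 : w₁ + (x - s) * (w₂ - w₁) = w₁ + x * (w₂ - w₁) + s * -(w₂ - w₁) := by ring
      have e2 : w₁ + (x + s) * (w₂ - w₁) = w₁ + x * (w₂ - w₁) - s * -(w₂ - w₁) := by ring
      simp only [e1, e2]
      linarith) t ht
  simpa using this

theorem off_mid {F : ℝ × ℝ → ℝ} {S : Set ℝ} (hS : IsClosed S) {g : ℝ → ℝ} (hg : Continuous g)
    (h : SegConv F (Gr S g))
    (x y α β : ℝ) (hp : (x, y) ∉ Gr S g) : ∃ δ > 0, ∀ s, 0 < s → s < δ →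
      2 * F (x, y) ≤ F (x - s * α, y - s * β) + F (x + s * α, y + s * β) := by
  have hcl : IsClosed (Gr S g) :=
    (hS.preimage continuous_fst).inter (isClosed_eq continuous_snd (by fun_prop))
  have hc : Continuous (fun r : ℝ => ((x + r * α, y + r * β) : ℝ × ℝ)) := by fun_prop
  have ev : ∀ᶠ r in 𝓝 (0:ℝ), ((x + r * α, y + r * β) : ℝ × ℝ) ∈ (Gr S g)ᶜ := by
    apply hc.continuousAt.eventually (p := fun q => q ∈ (Gr S g)ᶜ)
    simp only [zero_mul, add_zero]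
    exact hcl.isOpen_compl.mem_nhds hp
  obtain ⟨δ, hδ, hsub⟩ := Metric.mem_nhds_iff.mp ev
  refine ⟨δ, hδ, fun s hs hsδ => ?_⟩
  have := h (x - s * α) (y - s * β) (x + s * α) (y + s * β) (by
    intro t ht hb
    have h3 : (2 * t - 1) * s ∈ Metric.ball (0:ℝ) δ := by
      rw [Metric.mem_ball, Real.dist_eq, abs_lt]
      constructor <;> nlinarith [ht.1, ht.2]
    apply hsub h3
    have e : ((x + (2 * t - 1) * s * α, y + (2 * t - 1) * s * β) : ℝ × ℝ) =
        (x - s * α + t * (x + s * α - (x - s * α)), y - s * β + t * (y + s * β - (y - s * β))) := by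
      ext <;> simp only <;> ring
    rw [e]; exact hb) (1 / 2) ⟨by norm_num, by norm_num⟩
  have e : ((x - s * α + 1 / 2 * (x + s * α - (x - s * α)),
      y - s * β + 1 / 2 * (y + s * β - (y - s * β))) : ℝ × ℝ) = (x, y) := by
    ext <;> simp only <;> ring
  rw [e] at this
  linarith

theorem vert {F : ℝ × ℝ → ℝ} (hF : Continuous F) {S : Set ℝ} (hS : IsClosed S) {g : ℝ → ℝ}
    (hg : Continuous g) (hn : NDC S g)
    (h : SegConv F (Gr S g)) (x w₁ w₂ t : ℝ) (ht : t ∈ Icc (0:ℝ) 1) :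
    F (x, w₁ + t * (w₂ - w₁)) ≤ (1 - t) * F (x, w₁) + t * F (x, w₂) := by
  refine line_of_loc (fun w => F (x, w)) (by fun_prop) (fun w => ?_) w₁ w₂ t ht
  by_cases hp : (x, w) ∈ Gr S g
  · have hw : w = g x := hp.2
    refine ⟨1, one_pos, fun s hs hs1 => ?_⟩
    by_contra hfail
    push Not at hfail
    rw [hw] at hfail
    have ev : ∀ᶠ u in 𝓝 x, F (u, g x - s) + F (u, g x + s) < 2 * F (u, g x) :=
      ContinuousAt.eventually_lt (f := fun u => F (u, g x - s) + F (u, g x + s))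
        (g := fun u => 2 * F (u, g x)) (by fun_prop) (by fun_prop) hfail
    obtain ⟨η, hη, hηs⟩ := Metric.mem_nhds_iff.mp ev
    rw [Real.ball_eq_Ioo] at hηs
    have inS : Ioo (x - η) (x + η) ⊆ S := by
      intro u hu
      by_contra hnu
      have h1 := h u (g x - s) u (g x + s) (fun t _ hb => hnu (by
        have h2 : u + t * (u - u) ∈ S := hb.1
        rwa [sub_self, mul_zero, add_zero] at h2)) (1 / 2) ⟨by norm_num, by norm_num⟩
      rw [sub_self, mul_zero, add_zero,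
        show g x - s + 1 / 2 * (g x + s - (g x - s)) = g x by ring] at h1
      have h3 : F (u, g x - s) + F (u, g x + s) < 2 * F (u, g x) := hηs hu
      linarith
    obtain ⟨a, b, hab, hsub, A, B, γ, hγ, hA, hB, hAB⟩ := crossing hF h g x η 4
      hη hg.continuousOn (fun u _ w _ hb => hb.2) s hs (by linarith) hfail
    have sb : Icc ((2 * a + b) / 3) ((a + 2 * b) / 3) ⊆ Ioo a b :=
      fun u hu => ⟨by linarith [hu.1], by linarith [hu.2]⟩
    refine hn ((2 * a + b) / 3) ((a + 2 * b) / 3) (by linarith) ((sb.trans hsub).trans inS)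
      ⟨fun u => γ⁻¹ • A u, fun u => γ⁻¹ • B u,
        (hA.subset sb (convex_Icc _ _)).smul (inv_nonneg.mpr hγ.le),
        (hB.subset sb (convex_Icc _ _)).smul (inv_nonneg.mpr hγ.le), fun u _ => ?_⟩
    simp only [smul_eq_mul]
    rw [← mul_sub, ← hAB u]
    field_simp
  · obtain ⟨δ, hδ, hl⟩ := off_mid hS hg h x w 0 1 hp
    refine ⟨δ, hδ, fun s hs hsδ => ?_⟩
    simpa using hl s hs hsδ

theorem vlip {G : ℝ → ℝ} {M R : ℝ}
    (hG : ∀ w₁ w₂ t, t ∈ Icc (0:ℝ) 1 → G (w₁ + t * (w₂ - w₁)) ≤ (1 - t) * G w₁ + t * G w₂)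
    (hM : ∀ y, |y| ≤ R + 1 → |G y| ≤ M) (y y' : ℝ) (hy : |y| ≤ R) (hy' : |y'| ≤ R) :
    G y' ≤ G y + 2 * M * |y' - y| := by
  have cG : ConvexOn ℝ univ G := by
    refine ⟨convex_univ, fun u _ v _ a b ha hb hab => ?_⟩
    have := hG u v b ⟨hb, by linarith⟩
    have ha' : a = 1 - b := by linarith
    simp only [smul_eq_mul]
    rw [ha', show (1 - b) * u + b * v = u + b * (v - u) by ring]
    exact this
  have a1 := abs_le.mp hy
  have a2 := abs_le.mp hy'
  have b0 := abs_le.mp (hM y' (by linarith))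
  rcases lt_trichotomy y y' with hl | hl | hl
  · have s1 := cG.slope_mono_adjacent (mem_univ y) (mem_univ (y' + 1)) hl (by linarith)
    have b1 := abs_le.mp (hM (y' + 1) (abs_le.mpr ⟨by linarith, by linarith⟩))
    rw [add_sub_cancel_left, div_one, div_le_iff₀ (sub_pos.mpr hl)] at s1
    rw [abs_of_pos (sub_pos.mpr hl)]
    nlinarith
  · subst hl; simp
  · have s1 := cG.slope_mono_adjacent (mem_univ (y' - 1)) (mem_univ y) (by linarith) hl
    have b1 := abs_le.mp (hM (y' - 1) (abs_le.mpr ⟨by linarith, by linarith⟩))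
    rw [sub_sub_cancel, div_one, le_div_iff₀ (sub_pos.mpr hl)] at s1
    rw [abs_of_neg (sub_neg.mpr hl)]
    nlinarith

theorem cross {F : ℝ × ℝ → ℝ} (hF : Continuous F) {S : Set ℝ} {g : ℝ → ℝ} (h : SegConv F (Gr S g))
    {A C x₀ l μ σ : ℝ} (hC : 0 ≤ C) (hx : x₀ ∈ Ioo A (A + 1)) (hl : 0 < l) (hσ : σ * σ = 1)
    (hv : ∀ r, 2 * F (x₀, g x₀) ≤ F (x₀, g x₀ - r) + F (x₀, g x₀ + r))
    (hlip : ∀ x ∈ Icc A (A + 1), ∀ y, |y - g x| ≤ 1 → F (x, y) ≤ F (x, g x) + C * |y - g x|)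
    (dg : HasDerivAt g (σ * l) x₀) (dφ : HasDerivAt (fun x => F (x, g x)) μ x₀) :
    ∃ δ > 0, ∀ s, 0 < s → s < δ →
      2 * F (x₀, g x₀) ≤ F (x₀ - σ * s, g x₀) + F (x₀ + σ * s, g x₀) := by
  have aσ : |σ| = 1 := by
    rcases mul_self_eq_one_iff.mp hσ with h1 | h1 <;> simp [h1]
  have small : ∀ ε > 0, ∃ δ > 0, ∀ r, |r| < δ → |g (x₀ + σ * r) - g x₀ - l * r| ≤ ε / 4 * |r| ∧
      |F (x₀ + σ * r, g (x₀ + σ * r)) - F (x₀, g x₀) - σ * r * μ| ≤ ε * |r| ∧
        x₀ + σ * r ∈ Ioo A (A + 1) := by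
    intro ε hε
    have e1 := (Asymptotics.isLittleO_iff.mp (hasDerivAt_iff_isLittleO.mp dg))
      (show 0 < ε / 4 by positivity)
    have e2 := (Asymptotics.isLittleO_iff.mp (hasDerivAt_iff_isLittleO.mp dφ)) hε
    have e3 : ∀ᶠ x in 𝓝 x₀, x ∈ Ioo A (A + 1) := Ioo_mem_nhds hx.1 hx.2
    obtain ⟨δ, hδ, hsub⟩ := Metric.mem_nhds_iff.mp ((e1.and e2).and e3)
    refine ⟨δ, hδ, fun r hr => ?_⟩
    have hm : x₀ + σ * r ∈ Metric.ball x₀ δ := by
      rw [Metric.mem_ball, Real.dist_eq, add_sub_cancel_left, abs_mul, aσ, one_mul]; exact hr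
    obtain ⟨⟨h1, h2⟩, h3⟩ := hsub hm
    simp only [add_sub_cancel_left, Real.norm_eq_abs, smul_eq_mul, abs_mul σ r, aσ, one_mul] at h1 h2
    refine ⟨?_, h2, h3⟩
    rwa [show σ * r * (σ * l) = l * r by linear_combination (r * l) * hσ] at h1
  have low : ∀ ε, 0 < ε → ε ≤ l → ∃ δ > 0, ∀ s, 0 < s → s < δ →
      -((2 + 3 * C) * ε * s) ≤ F (x₀ - σ * s, g x₀) + F (x₀ + σ * s, g x₀) - 2 * F (x₀, g x₀) := by
    intro ε hε hεl
    obtain ⟨δ, hδ, hs⟩ := small ε hε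
    refine ⟨min δ (1 / (2 * ε)), lt_min hδ (by positivity), fun s s0 s1 => ?_⟩
    have sδ : s < δ := s1.trans_le (min_le_left _ _)
    have sε : s * (2 * ε) < 1 := (lt_div_iff₀ (by positivity)).mp (s1.trans_le (min_le_right _ _))
    have ab : ∀ t ∈ Icc (0:ℝ) 1, |(2 * t - 1) * s| ≤ s := fun t ht =>
      abs_le.mpr ⟨by nlinarith [ht.1, ht.2], by nlinarith [ht.1, ht.2]⟩
    have up := h (x₀ - σ * s) (g x₀) (x₀ + σ * s) (g x₀ + (l + ε) * s) (by
      intro t ht hb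
      have h2 : g x₀ + t * (g x₀ + (l + ε) * s - g x₀)
        = g (x₀ - σ * s + t * (x₀ + σ * s - (x₀ - σ * s))) := hb.2
      rw [show x₀ - σ * s + t * (x₀ + σ * s - (x₀ - σ * s)) = x₀ + σ * ((2 * t - 1) * s) by ring]
        at h2
      have h3 := (abs_le.mp (hs _ ((ab t ht).trans_lt sδ)).1).2
      have h4 : ε / 4 * |(2 * t - 1) * s| ≤ ε / 4 * s := by gcongr; exact ab t ht
      have h5 : 0 ≤ (l - ε) * (1 - t) * s :=
        mul_nonneg (mul_nonneg (by linarith) (by linarith [ht.2])) s0.le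
      have h6 : 0 < ε * s := by positivity
      nlinarith) (1 / 2) ⟨by norm_num, by norm_num⟩
    have dn := h (x₀ + σ * s) (g x₀) (x₀ - σ * s) (g x₀ - (l + ε) * s) (by
      intro t ht hb
      have h2 : g x₀ + t * (g x₀ - (l + ε) * s - g x₀)
        = g (x₀ + σ * s + t * (x₀ - σ * s - (x₀ + σ * s))) := hb.2
      rw [show x₀ + σ * s + t * (x₀ - σ * s - (x₀ + σ * s)) = x₀ + σ * (-((2 * t - 1) * s)) by ring]
        at h2
      have h3 := (abs_le.mp (hs (-((2 * t - 1) * s))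
        (by rw [abs_neg]; exact (ab t ht).trans_lt sδ)).1).1
      rw [abs_neg] at h3
      have h4 : ε / 4 * |(2 * t - 1) * s| ≤ ε / 4 * s := by gcongr; exact ab t ht
      have h5 : 0 ≤ (l - ε) * (1 - t) * s :=
        mul_nonneg (mul_nonneg (by linarith) (by linarith [ht.2])) s0.le
      have h6 : 0 < ε * s := by positivity
      nlinarith) (1 / 2) ⟨by norm_num, by norm_num⟩
    have e1 : ((x₀ - σ * s + 1 / 2 * (x₀ + σ * s - (x₀ - σ * s)),
        g x₀ + 1 / 2 * (g x₀ + (l + ε) * s - g x₀)) : ℝ × ℝ) = (x₀, g x₀ + (l + ε) * s / 2) := by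
      ext <;> simp only <;> ring
    have e2 : ((x₀ + σ * s + 1 / 2 * (x₀ - σ * s - (x₀ + σ * s)),
        g x₀ + 1 / 2 * (g x₀ - (l + ε) * s - g x₀)) : ℝ × ℝ) = (x₀, g x₀ - (l + ε) * s / 2) := by
      ext <;> simp only <;> ring
    rw [e1] at up
    rw [e2] at dn
    have v := hv ((l + ε) * s / 2)
    have as : |s| = s := abs_of_pos s0
    obtain ⟨p1, p2, p3⟩ := hs s (by rw [as]; exact sδ)
    obtain ⟨q1, q2, q3⟩ := hs (-s) (by rw [abs_neg, as]; exact sδ)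
    rw [show x₀ + σ * -s = x₀ - σ * s by ring] at q1 q2 q3
    rw [abs_neg s] at q1 q2
    rw [as] at p1 p2 q1 q2
    have h6 : 0 < ε * s := by positivity
    have r1 : |g x₀ + (l + ε) * s - g (x₀ + σ * s)| ≤ 3 / 2 * (ε * s) := by
      have := abs_le.mp p1
      exact abs_le.mpr ⟨by nlinarith, by nlinarith⟩
    have r2 : |g x₀ - (l + ε) * s - g (x₀ - σ * s)| ≤ 3 / 2 * (ε * s) := by
      have := abs_le.mp q1
      exact abs_le.mpr ⟨by nlinarith, by nlinarith⟩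
    have t1 := hlip _ (Ioo_subset_Icc_self p3) _ (r1.trans (by nlinarith))
    have t2 := hlip _ (Ioo_subset_Icc_self q3) _ (r2.trans (by nlinarith))
    have u1 := mul_le_mul_of_nonneg_left r1 hC
    have u2 := mul_le_mul_of_nonneg_left r2 hC
    have w1 := (abs_le.mp p2).2
    have w2 := (abs_le.mp q2).2
    nlinarith
  obtain ⟨δ, hδ, hs⟩ := small l hl
  refine ⟨δ, hδ, fun s s0 sδ => ?_⟩
  have ab : ∀ t ∈ Icc (0:ℝ) 1, |t * s| = t * s ∧ |t * s| < δ := fun t ht => by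
    have : 0 ≤ t * s := mul_nonneg ht.1 s0.le
    rw [abs_of_nonneg this]
    exact ⟨rfl, by nlinarith [ht.2]⟩
  have mono : ∀ t ∈ Icc (0:ℝ) 1,
      F (x₀ - σ * (t * s), g x₀) + F (x₀ + σ * (t * s), g x₀) - 2 * F (x₀, g x₀) ≤
        t * (F (x₀ - σ * s, g x₀) + F (x₀ + σ * s, g x₀) - 2 * F (x₀, g x₀)) := by
    intro t ht
    have a1 := seg_limit hF h x₀ (g x₀) (x₀ + σ * s) (g x₀) (-1) 1 one_pos (by
      intro e he t ht hb
      have h2 : g x₀ + t * (g x₀ - g x₀) + -1 * e = g (x₀ + t * (x₀ + σ * s - x₀)) := hb.2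
      rw [show x₀ + t * (x₀ + σ * s - x₀) = x₀ + σ * (t * s) by ring] at h2
      have h3 := (abs_le.mp (hs _ (ab t ht).2).1).1
      rw [(ab t ht).1] at h3
      have : 0 ≤ l * (t * s) := mul_nonneg hl.le (mul_nonneg ht.1 s0.le)
      nlinarith [he.1]) t ht
    have a2 := seg_limit hF h x₀ (g x₀) (x₀ - σ * s) (g x₀) 1 1 one_pos (by
      intro e he t ht hb
      have h2 : g x₀ + t * (g x₀ - g x₀) + 1 * e = g (x₀ + t * (x₀ - σ * s - x₀)) := hb.2
      rw [show x₀ + t * (x₀ - σ * s - x₀) = x₀ + σ * (-(t * s)) by ring] at h2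
      have h3 := (abs_le.mp (hs (-(t * s)) (by rw [abs_neg]; exact (ab t ht).2)).1).2
      rw [abs_neg, (ab t ht).1] at h3
      have : 0 ≤ l * (t * s) := mul_nonneg hl.le (mul_nonneg ht.1 s0.le)
      nlinarith [he.1]) t ht
    rw [show x₀ + t * (x₀ + σ * s - x₀) = x₀ + σ * (t * s) by ring, sub_self, mul_zero, add_zero]
      at a1
    rw [show x₀ + t * (x₀ - σ * s - x₀) = x₀ - σ * (t * s) by ring, sub_self, mul_zero, add_zero]
      at a2
    linarith
  set q := F (x₀ - σ * s, g x₀) + F (x₀ + σ * s, g x₀) - 2 * F (x₀, g x₀) with hq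
  by_contra hneg
  have q0 : q < 0 := by simp only [hq]; linarith [not_le.mp hneg]
  have D0 : 0 < (2 + 3 * C) * s := by positivity
  set ε := min l (-q / (2 * ((2 + 3 * C) * s))) with hε
  have ε0 : 0 < ε := lt_min hl (div_pos (by linarith) (by positivity))
  have ε1 : ε * (2 * ((2 + 3 * C) * s)) ≤ -q :=
    (le_div_iff₀ (by positivity)).mp (min_le_right _ _)
  obtain ⟨δ', hδ', hlow⟩ := low ε ε0 (min_le_left _ _)
  set t := min 1 (δ' / (2 * s)) with ht
  have t0 : 0 < t := lt_min one_pos (by positivity)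
  have t1 : t * (2 * s) ≤ δ' := (le_div_iff₀ (by positivity)).mp (min_le_right _ _)
  have k1 := hlow (t * s) (by positivity) (by linarith [mul_pos t0 s0])
  have k2 := mono t ⟨t0.le, min_le_left _ _⟩
  have k3 : -((2 + 3 * C) * ε * (t * s)) ≤ t * q := k1.trans k2
  have k4 := mul_le_mul_of_nonneg_left ε1 t0.le
  have k5 := mul_pos t0 (neg_pos.mpr q0)
  nlinarith

end Pool.Agent.MP_ee90f2_an.S80
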