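import Mathlib
import Pool.Agent.MP_ee90f2_an.S80.Lip

/-! Horizontal lines, then all lines. -/

namespace Pool.Agent.MP_ee90f2_an.S80

open Set Filter Topology MeasureTheory

theorem strip {F : ℝ × ℝ → ℝ} (hF : Continuous F) {S : Set ℝ} (hS : IsClosed S) {g : ℝ → ℝ}
    {L : NNReal} (hL : LipschitzWith L g) (hn : NDC S g) (h : SegConv F (Gr S g)) (A : ℝ) :
    ∃ M : ℝ, 0 ≤ M ∧
      (∀ u ∈ Icc A (A + 1), ∀ y, |y - g u| ≤ 1 → F (u, y) ≤ F (u, g u) + 2 * M * |y - g u|) ∧
      ∀ᵐ x : ℝ, x ∈ Icc A (A + 1) →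
        DifferentiableWithinAt ℝ (fun x => F (x, g x)) (Icc A (A + 1)) x := by
  have hg : Continuous g := hL.continuous
  have L0 : (0:ℝ) ≤ L := L.2
  have hL' : ∀ x y, |g x - g y| ≤ L * |x - y| := fun x y => by
    simpa [Real.dist_eq] using hL.dist_le_mul x y
  have hv := vert hF hS hg hn h
  set R : ℝ := |g A| + 2 * L + 2 with hR
  have gb : ∀ x ∈ Icc A (A + 1), |g x| ≤ |g A| + L := fun x hx => by
    have h1 := hL' x A
    rw [abs_of_nonneg (sub_nonneg.mpr hx.1)] at h1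
    have h2 := abs_sub_abs_le_abs_sub (g x) (g A)
    nlinarith [hx.2]
  obtain ⟨M, hM⟩ := (isCompact_Icc.prod isCompact_Icc).exists_bound_of_continuousOn
    (s := Icc (A - 1) (A + 2) ×ˢ Icc (-(R + 1)) (R + 1)) hF.continuousOn
  have hM' : ∀ x ∈ Icc (A - 1) (A + 2), ∀ y, |y| ≤ R + 1 → |F (x, y)| ≤ M :=
    fun x hx y hy => hM (x, y) ⟨hx, abs_le.mp hy⟩
  have R0 : 0 ≤ R := by positivity
  have M0 : 0 ≤ M := (abs_nonneg _).trans (hM' A ⟨by linarith, by linarith⟩ 0 (by simp; linarith))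
  have vl : ∀ x ∈ Icc A (A + 1), ∀ y, |y| ≤ R → ∀ y', |y'| ≤ R →
      F (x, y') ≤ F (x, y) + 2 * M * |y' - y| := fun x hx y hy y' hy' =>
    vlip (G := fun y => F (x, y)) (hv x) (hM' x ⟨by linarith [hx.1], by linarith [hx.2]⟩) y y' hy hy'
  have step : ∀ x ∈ Icc A (A + 1), ∀ σ d : ℝ, |σ| = 1 → d ∈ Icc (0:ℝ) 1 →
      x + d * σ ∈ Icc A (A + 1) →
      F (x + d * σ, g (x + d * σ)) ≤ F (x, g x) + 2 * M * (2 * L + 2) * d := by
    intro x hx σ d hσ hd hx'
    have a1 := seg_limit hF h x (g x) (x + σ) (g x + (L + 1)) 1 1 one_pos (by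
      intro e he t ht hb
      have h2 : g x + t * (g x + (L + 1) - g x) + 1 * e = g (x + t * (x + σ - x)) := hb.2
      have h3 := hL' (x + t * (x + σ - x)) x
      rw [show x + t * (x + σ - x) - x = t * σ by ring, abs_mul, hσ, abs_of_nonneg ht.1] at h3
      have h4 := (abs_le.mp h3).2
      nlinarith [he.1, ht.1]) d hd
    rw [show x + d * (x + σ - x) = x + d * σ by ring,
      show g x + d * (g x + (L + 1) - g x) = g x + d * (L + 1) by ring] at a1
    have b0 := abs_le.mp (gb x hx)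
    have b1 := abs_le.mp (gb _ hx')
    have sσ := abs_le.mp hσ.le
    have g0 := abs_nonneg (g A)
    have c1 := abs_le.mp (hM' x ⟨by linarith [hx.1], by linarith [hx.2]⟩ (g x)
      (abs_le.mpr ⟨by linarith, by linarith⟩))
    have c2 := abs_le.mp (hM' (x + σ) ⟨by linarith [hx.1], by linarith [hx.2]⟩ (g x + (L + 1))
      (abs_le.mpr ⟨by linarith, by linarith⟩))
    have dL : 0 ≤ d * (L + 1) := mul_nonneg hd.1 (by linarith)
    have dL' : d * (L + 1) ≤ L + 1 := by nlinarith [hd.2]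
    have c3 := vl _ hx' (g x + d * (L + 1)) (abs_le.mpr ⟨by linarith, by linarith⟩) (g (x + d * σ))
      (abs_le.mpr ⟨by linarith, by linarith⟩)
    have c4 : |g (x + d * σ) - (g x + d * (L + 1))| ≤ (2 * L + 1) * d := by
      have h3 := hL' (x + d * σ) x
      rw [add_sub_cancel_left, abs_mul, hσ, abs_of_nonneg hd.1] at h3
      have := abs_le.mp h3
      exact abs_le.mpr ⟨by nlinarith, by nlinarith⟩
    have c5 := mul_le_mul_of_nonneg_left c4 (show 0 ≤ 2 * M by linarith)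
    have c6 : d * F (x + σ, g x + (L + 1)) ≤ d * M := mul_le_mul_of_nonneg_left c2.2 hd.1
    have c7 : d * -M ≤ d * F (x, g x) := mul_le_mul_of_nonneg_left c1.1 hd.1
    nlinarith
  have φL : LipschitzOnWith (2 * M * (2 * L + 2)).toNNReal (fun x => F (x, g x))
      (Icc A (A + 1)) := by
    refine LipschitzOnWith.of_le_add_mul' _ fun y hy x hx => ?_
    rw [Real.dist_eq]
    rcases le_total x y with hxy | hxy
    · have := step x hx 1 (y - x) abs_one ⟨by linarith, by linarith [hx.1, hy.2]⟩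
        (by rw [show x + (y - x) * 1 = y by ring]; exact hy)
      rw [show x + (y - x) * 1 = y by ring] at this
      rw [abs_of_nonneg (sub_nonneg.mpr hxy)]; exact this
    · have := step x hx (-1) (x - y) (by simp) ⟨by linarith, by linarith [hx.2, hy.1]⟩
        (by rw [show x + (x - y) * -1 = y by ring]; exact hy)
      rw [show x + (x - y) * -1 = y by ring] at this
      rw [abs_of_nonpos (sub_nonpos.mpr hxy), neg_sub]; exact this
  refine ⟨M, M0, fun u hu y hy => ?_, φL.ae_differentiableWithinAt_of_mem_real⟩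
  have b0 := abs_le.mp (gb u hu)
  have b1 := abs_le.mp hy
  exact vl u hu (g u) (abs_le.mpr ⟨by linarith, by linarith⟩) y
    (abs_le.mpr ⟨by linarith, by linarith⟩)

theorem horiz {F : ℝ × ℝ → ℝ} (hF : Continuous F) {S : Set ℝ} (hS : IsClosed S) {g : ℝ → ℝ}
    {L : NNReal} (hL : LipschitzWith L g) (hn : NDC S g) (h : SegConv F (Gr S g)) (c x₁ x₂ t : ℝ)
    (ht : t ∈ Icc (0:ℝ) 1) : F (x₁ + t * (x₂ - x₁), c) ≤ (1 - t) * F (x₁, c) + t * F (x₂, c) := by
  have hg : Continuous g := hL.continuous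
  have hv := vert hF hS hg hn h
  choose M M0 lp dφ using strip hF hS hL hn h
  set N₁ : Set ℝ := {x | ¬ (DifferentiableAt ℝ g x ∧ ∀ q : ℚ, x ∈ Icc (q : ℝ) (q + 1) →
    DifferentiableWithinAt ℝ (fun x => F (x, g x)) (Icc (q : ℝ) (q + 1)) x)} with hN₁
  have n1 : volume N₁ = 0 :=
    ae_iff.mp (hL.ae_differentiableAt_real.and (ae_all_iff.mpr fun q : ℚ => dφ q))
  have n2 : volume (g '' N₁) = 0 := by
    have := hL.hausdorffMeasure_image_le zero_le_one N₁
    rw [hausdorffMeasure_real, n1, mul_zero] at this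
    exact le_antisymm this zero_le
  have n3 : volume (g '' {x | HasDerivAt g 0 x}) = 0 := by
    apply addHaar_image_eq_zero_of_det_fderivWithin_eq_zero volume
      (f' := fun _ => ContinuousLinearMap.toSpanSingleton ℝ (0:ℝ))
    · intro x hx
      exact (show HasDerivAt g 0 x from hx).hasFDerivAt.hasFDerivWithinAt
    · intro x _
      rw [ContinuousLinearMap.det_toSpanSingleton]
  have good : ∀ c, c ∉ g '' N₁ ∪ g '' {x | HasDerivAt g 0 x} →
      F (x₁ + t * (x₂ - x₁), c) ≤ (1 - t) * F (x₁, c) + t * F (x₂, c) := by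
    intro c hc
    refine line_of_loc (fun x => F (x, c)) (by fun_prop) (fun x => ?_) x₁ x₂ t ht
    by_cases hp : (x, c) ∈ Gr S g
    · have hw : c = g x := hp.2
      have k1 : x ∉ N₁ := fun h0 => hc (Or.inl ⟨x, h0, hw.symm⟩)
      have k2 : ¬ HasDerivAt g 0 x := fun h0 => hc (Or.inr ⟨x, h0, hw.symm⟩)
      obtain ⟨d1, d2⟩ := not_not.mp k1
      obtain ⟨q, q1, q2⟩ := exists_rat_btwn (show x - 1 < x by linarith)
      have hx : x ∈ Ioo (q : ℝ) (q + 1) := ⟨q2, by linarith⟩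
      have d4 := ((d2 q (Ioo_subset_Icc_self hx)).differentiableAt
        (Icc_mem_nhds hx.1 hx.2)).hasDerivAt
      have M2 : 0 ≤ 2 * M q := by linarith [M0 q]
      have d5 : deriv g x ≠ 0 := fun h0 => k2 (h0 ▸ d1.hasDerivAt)
      have v : ∀ r, 2 * F (x, g x) ≤ F (x, g x - r) + F (x, g x + r) := fun r => by
        have := hv x (g x - r) (g x + r) (1 / 2) ⟨by norm_num, by norm_num⟩
        rw [show g x - r + 1 / 2 * (g x + r - (g x - r)) = g x by ring] at this
        linarith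
      rw [hw]
      rcases lt_or_gt_of_ne d5 with hs | hs
      · obtain ⟨δ, hδ, hl⟩ := cross hF h (σ := -1) (l := -deriv g x) M2 hx
          (by linarith) (by norm_num) v (lp q) (by simpa using d1.hasDerivAt) d4
        refine ⟨δ, hδ, fun s s0 s1 => ?_⟩
        have := hl s s0 s1
        rw [show x - -1 * s = x + s by ring, show x + -1 * s = x - s by ring] at this
        linarith
      · obtain ⟨δ, hδ, hl⟩ := cross hF h (σ := 1) (l := deriv g x) M2 hx
          hs (by norm_num) v (lp q) (by simpa using d1.hasDerivAt) d4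
        refine ⟨δ, hδ, fun s s0 s1 => ?_⟩
        have := hl s s0 s1
        rwa [one_mul] at this
    · obtain ⟨δ, hδ, hl⟩ := off_mid hS hg h x c 1 0 hp
      refine ⟨δ, hδ, fun s hs hsδ => ?_⟩
      simpa using hl s hs hsδ
  have hdense : Dense {c | c ∉ g '' N₁ ∪ g '' {x | HasDerivAt g 0 x}} :=
    Measure.dense_of_ae (μ := volume) (measure_eq_zero_iff_ae_notMem.mp (measure_union_null n2 n3))
  have hclosed : IsClosed {c : ℝ |
      F (x₁ + t * (x₂ - x₁), c) ≤ (1 - t) * F (x₁, c) + t * F (x₂, c)} :=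
    isClosed_le (by fun_prop) (by fun_prop)
  exact closure_minimal (fun c hc => good c hc) hclosed (hdense c)

theorem lip_removable {f : ℝ × ℝ → ℝ} (hf : Continuous f) {S : Set ℝ} (hS : IsClosed S)
    {g : ℝ → ℝ} {L : NNReal} (hL : LipschitzWith L g) (hn : NDC S g) (h : SegConv f (Gr S g))
    (x₁ y₁ x₂ y₂ t : ℝ) (ht : t ∈ Icc (0:ℝ) 1) :
    f (x₁ + t * (x₂ - x₁), y₁ + t * (y₂ - y₁)) ≤ (1 - t) * f (x₁, y₁) + t * f (x₂, y₂) := by
  by_cases hx : x₂ = x₁
  · rw [hx, sub_self, mul_zero, add_zero]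
    exact vert hf hS hL.continuous hn h x₁ y₁ y₂ t ht
  have hd : x₂ - x₁ ≠ 0 := sub_ne_zero.mpr hx
  set m := (y₂ - y₁) / (x₂ - x₁) with hm
  have hm' : y₂ - y₁ = m * (x₂ - x₁) := by rw [hm]; field_simp
  have hL2 : LipschitzWith (L + ‖m‖₊) (fun x => g x - m * x) := by
    refine hL.sub (LipschitzWith.of_dist_le_mul fun x y => ?_)
    rw [Real.dist_eq, Real.dist_eq, ← mul_sub, abs_mul]
    exact le_rfl
  have hn2 : NDC S (fun x => g x - m * x) := by
    rintro a b hab hb ⟨P, Q, hP, hQ, hPQ⟩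
    have hl : ConvexOn ℝ (Icc a b) (fun x : ℝ => m * x) :=
      ⟨convex_Icc _ _, fun x _ y _ α β _ _ _ => by simp only [smul_eq_mul]; exact le_of_eq (by ring)⟩
    refine hn a b hab hb ⟨fun x => P x + m * x, Q, hP.add hl, hQ, fun x hx => ?_⟩
    have := hPQ x hx
    simp only at this ⊢
    linarith
  have := horiz (F := fun p => f (p.1, p.2 + m * p.1)) (by fun_prop) hS hL2 hn2
    (by
      intro u₁ w₁ u₂ w₂ hav t ht
      have := h u₁ (w₁ + m * u₁) u₂ (w₂ + m * u₂) (by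
        intro t ht hb
        apply hav t ht
        refine ⟨hb.1, ?_⟩
        have h2 : w₁ + m * u₁ + t * (w₂ + m * u₂ - (w₁ + m * u₁)) = g (u₁ + t * (u₂ - u₁)) := hb.2
        simp only
        rw [← h2]; ring) t ht
      have e : w₁ + m * u₁ + t * (w₂ + m * u₂ - (w₁ + m * u₁))
        = w₁ + t * (w₂ - w₁) + m * (u₁ + t * (u₂ - u₁)) := by ring
      rw [e] at this
      exact this)
    (y₁ - m * x₁) x₁ x₂ t ht
  simp only at this
  have e1 : y₁ - m * x₁ + m * (x₁ + t * (x₂ - x₁)) = y₁ + t * (y₂ - y₁) := by rw [hm']; ring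
  have e2 : y₁ - m * x₁ + m * x₁ = y₁ := by ring
  have e3 : y₁ - m * x₁ + m * x₂ = y₂ := by linarith
  rw [e1, e2, e3] at this
  exact this

end Pool.Agent.MP_ee90f2_an.S80
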