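import Mathlib
import Pool.Agent.MP_ee90f2_an.S80.Lip2

/-! If the function is a difference of two convex functions on a subinterval, the graph is not
removable. -/

namespace Pool.Agent.MP_ee90f2_an.S80

open Set Filter Topology MeasureTheory

theorem convex_primitive {p : ℝ → ℝ} (hp : Monotone p) (a : ℝ) :
    ConvexOn ℝ univ (fun x => ∫ t in a..x, p t) := by
  have hi : ∀ x y, IntervalIntegrable p volume x y := fun x y => hp.intervalIntegrable
  refine convexOn_of_slope_mono_adjacent convex_univ fun {x y z} _ _ hxy hyz => ?_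
  rw [intervalIntegral.integral_interval_sub_left (hi a y) (hi a x),
    intervalIntegral.integral_interval_sub_left (hi a z) (hi a y)]
  have h1 : ∫ t in x..y, p t ≤ ∫ _t in x..y, p y :=
    intervalIntegral.integral_mono_on hxy.le (hi x y) intervalIntegrable_const fun t ht => hp ht.2
  have h2 : ∫ _t in y..z, p y ≤ ∫ t in y..z, p t :=
    intervalIntegral.integral_mono_on hyz.le intervalIntegrable_const (hi y z) fun t ht => hp ht.1
  rw [intervalIntegral.integral_const, smul_eq_mul] at h1 h2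
  have h3 : (∫ t in x..y, p t) / (y - x) ≤ p y := by
    rw [div_le_iff₀ (sub_pos.mpr hxy)]; linarith
  have h4 : p y ≤ (∫ t in y..z, p t) / (z - y) := by
    rw [le_div_iff₀ (sub_pos.mpr hyz)]; linarith
  exact h3.trans h4

theorem extend_convex {P : ℝ → ℝ} {a b a' b' : ℝ} (hP : ConvexOn ℝ (Icc a b) P) (h1 : a < a')
    (h2 : a' < b') (h3 : b' < b) :
    ∃ P₀ : ℝ → ℝ, ConvexOn ℝ univ P₀ ∧ ∀ x ∈ Icc a' b', P₀ x = P x := by
  have sb : Icc a' b' ⊆ interior (Icc a b) := by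
    rw [interior_Icc]
    exact fun x hx => ⟨h1.trans_le hx.1, hx.2.trans_lt h3⟩
  set p : ℝ → ℝ := fun x => derivWithin P (Ioi x) x with hp
  have pm : MonotoneOn p (Icc a' b') := hP.monotoneOn_rightDeriv.mono sb
  set cl : ℝ → ℝ := fun x => max a' (min b' x) with hcl
  have clm : Monotone cl := fun x y hxy => max_le_max le_rfl (min_le_min le_rfl hxy)
  have cli : ∀ x, cl x ∈ Icc a' b' := fun x => ⟨le_max_left _ _, max_le h2.le (min_le_left _ _)⟩
  have cle : ∀ x ∈ Icc a' b', cl x = x := fun x hx => by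
    simp only [hcl]; rw [min_eq_right hx.2, max_eq_right hx.1]
  have mp : Monotone (fun x => p (cl x)) := fun x y hxy => pm (cli x) (cli y) (clm hxy)
  refine ⟨fun x => (∫ t in a'..x, p (cl t)) + P a', (convex_primitive mp a').add_const _,
    fun x hx => ?_⟩
  have sb' : Icc a' x ⊆ Icc a' b' := Icc_subset_Icc le_rfl hx.2
  have := intervalIntegral.integral_eq_sub_of_hasDeriv_right_of_le (f := P)
    (f' := fun t => p (cl t)) hx.1 (hP.continuousOn_interior.mono (sb'.trans sb))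
    (fun t ht => by
      have ht' := sb' (Ioo_subset_Icc_self ht)
      rw [cle t ht']
      exact hP.hasDerivWithinAt_rightDeriv_of_mem_interior (sb ht')) mp.intervalIntegrable
  simp only
  linarith

theorem exists_dc {h P Q : ℝ → ℝ} {a b a' b' : ℝ} (hP : ConvexOn ℝ (Icc a b) P)
    (hQ : ConvexOn ℝ (Icc a b) Q) (hPQ : ∀ x ∈ Icc a b, h x = P x - Q x) (h1 : a < a')
    (h2 : a' < b') (h3 : b' < b) :
    ∃ P Q : ℝ → ℝ, ConvexOn ℝ univ P ∧ ConvexOn ℝ univ Q ∧ (∀ x, 0 ≤ P x) ∧ (∀ x, 0 ≤ Q x) ∧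
      ∀ x ∈ Icc a' b', h x = P x - Q x := by
  obtain ⟨P₀, cP, eP⟩ := extend_convex hP h1 h2 h3
  obtain ⟨Q₀, cQ, eQ⟩ := extend_convex hQ h1 h2 h3
  obtain ⟨M, hM⟩ := isCompact_Icc.exists_bound_of_continuousOn (s := Icc a' b')
    ((cP.continuousOn isOpen_univ).mono (subset_univ _))
  obtain ⟨N, hN⟩ := isCompact_Icc.exists_bound_of_continuousOn (s := Icc a' b')
    ((cQ.continuousOn isOpen_univ).mono (subset_univ _))
  set C := |M| + |N| with hC
  refine ⟨fun x => max (P₀ x + C) 0, fun x => max (Q₀ x + C) 0,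
    (cP.add_const _).sup (convexOn_const 0 convex_univ),
    (cQ.add_const _).sup (convexOn_const 0 convex_univ),
    fun x => le_max_right _ _, fun x => le_max_right _ _, fun x hx => ?_⟩
  have b1 := abs_le.mp (show |P₀ x| ≤ M from hM x hx)
  have b2 := abs_le.mp (show |Q₀ x| ≤ N from hN x hx)
  have := le_abs_self M
  have := le_abs_self N
  have := abs_nonneg M
  have := abs_nonneg N
  simp only
  rw [max_eq_left (by linarith [b1.1]), max_eq_left (by linarith [b2.1]),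
    hPQ x ⟨h1.le.trans hx.1, hx.2.trans h3.le⟩, eP x hx, eQ x hx]
  ring

theorem conv_coord (i : Fin 2) {P : ℝ → ℝ} (hP : ConvexOn ℝ univ P) :
    ConvexOn ℝ univ (fun z : EuclideanSpace ℝ (Fin 2) => P (z i)) := by
  refine ⟨convex_univ, fun x _ y _ a b ha hb hab => ?_⟩
  have := hP.2 (mem_univ (x i)) (mem_univ (y i)) ha hb hab
  simpa using this

theorem conv_hinge (c : ℝ) : ConvexOn ℝ univ (fun x : ℝ => max (x - c) 0) := by
  have h1 : ConvexOn ℝ univ (fun x : ℝ => x - c) := (convexOn_id convex_univ).add_const (-c)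
  exact h1.sup (convexOn_const 0 convex_univ)

theorem conv_sq (c : ℝ) : ConvexOn ℝ univ (fun y : ℝ => (y + c) ^ 2 / 2) := by
  refine ⟨convex_univ, fun x _ y _ a b ha hb hab => ?_⟩
  simp only [smul_eq_mul]
  have hb' : b = 1 - a := by linarith
  subst hb'
  nlinarith [mul_nonneg (mul_nonneg ha hb) (sq_nonneg (x - y))]

theorem conv_two {E : Type} [AddCommGroup E] [Module ℝ E] {u v : E → ℝ} (hu : ConvexOn ℝ univ u)
    (hv : ConvexOn ℝ univ v) (u0 : ∀ z, 0 ≤ u z) (v0 : ∀ z, 0 ≤ v z) :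
    ConvexOn ℝ univ (fun z => u z ^ 2 + v z ^ 2) :=
  (hu.pow (fun z _ => u0 z) 2).add (hv.pow (fun z _ => v0 z) 2)

theorem not_removable {h : ℝ → ℝ} (th : Continuous h) {S : Set ℝ} (hS : IsClosed S) {a b : ℝ}
    (hab : a < b) (hb : Icc a b ⊆ S) (hdc : ∃ P Q : ℝ → ℝ, ConvexOn ℝ univ P ∧ ConvexOn ℝ univ Q ∧ (∀ x, 0 ≤ P x) ∧
      (∀ x, 0 ≤ Q x) ∧ ∀ x ∈ Icc a b, h x = P x - Q x)
    (K : Set (EuclideanSpace ℝ (Fin 2))) (hK : K = {z | z 0 ∈ S ∧ z 1 = h (z 0)}) :
    ∃ f : EuclideanSpace ℝ (Fin 2) → ℝ, Continuous f ∧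
      (∀ x ∈ Kᶜ, ∃ V : Set (EuclideanSpace ℝ (Fin 2)),
        IsOpen V ∧ Convex ℝ V ∧ x ∈ V ∧ V ⊆ Kᶜ ∧ ConvexOn ℝ V f) ∧ ¬ ConvexOn ℝ univ f := by
  obtain ⟨P, Q, cP, cQ, P0, Q0, hPQ⟩ := hdc
  set m := (a + b) / 2 with hm
  set a₁ : ℝ → ℝ := fun x => max (x - a) 0 + max (x - b) 0 with ha₁
  set a₂ : ℝ → ℝ := fun x => max (x - m) 0 + max (x - m) 0 with ha₂
  have ca₁ : ConvexOn ℝ univ a₁ := (conv_hinge a).add (conv_hinge b)
  have ca₂ : ConvexOn ℝ univ a₂ := (conv_hinge m).add (conv_hinge m)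
  have a₁0 : ∀ x, 0 ≤ a₁ x := fun x => add_nonneg (le_max_right _ _) (le_max_right _ _)
  have a₂0 : ∀ x, 0 ≤ a₂ x := fun x => add_nonneg (le_max_right _ _) (le_max_right _ _)
  have φ0 : ∀ x, 0 ≤ a₁ x - a₂ x := fun x => by
    simp only [ha₁, ha₂, max_def]; split_ifs <;> linarith
  have φz : ∀ x, x ∉ Icc a b → a₁ x - a₂ x = 0 := fun x hx => by
    rw [mem_Icc, not_and_or, not_le, not_le] at hx
    simp only [ha₁, ha₂, max_def]
    rcases hx with hx | hx <;> split_ifs <;> linarith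
  have φm : a₁ m - a₂ m = (b - a) / 2 := by
    simp only [ha₁, ha₂, max_def]; split_ifs <;> linarith
  set A : EuclideanSpace ℝ (Fin 2) → ℝ := fun z =>
    (a₁ (z 0) + ((z 1 + 1) ^ 2 / 2 + Q (z 0))) ^ 2 +
      (a₂ (z 0) + ((z 1 + 0) ^ 2 / 2 + 1 / 2 + P (z 0))) ^ 2 with hA
  set B : EuclideanSpace ℝ (Fin 2) → ℝ := fun z =>
    (a₁ (z 0) + ((z 1 + 0) ^ 2 / 2 + 1 / 2 + P (z 0))) ^ 2 +
      (a₂ (z 0) + ((z 1 + 1) ^ 2 / 2 + Q (z 0))) ^ 2 with hB
  have cb₁ : ConvexOn ℝ univ (fun z : EuclideanSpace ℝ (Fin 2) => (z 1 + 1) ^ 2 / 2 + Q (z 0)) :=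
    (conv_coord 1 (conv_sq 1)).add (conv_coord 0 cQ)
  have cb₂ : ConvexOn ℝ univ
      (fun z : EuclideanSpace ℝ (Fin 2) => (z 1 + 0) ^ 2 / 2 + 1 / 2 + P (z 0)) :=
    ((conv_coord 1 (conv_sq 0)).add_const (1 / 2)).add (conv_coord 0 cP)
  have b₁0 : ∀ z : EuclideanSpace ℝ (Fin 2), 0 ≤ (z 1 + 1) ^ 2 / 2 + Q (z 0) :=
    fun z => add_nonneg (by positivity) (Q0 _)
  have b₂0 : ∀ z : EuclideanSpace ℝ (Fin 2), 0 ≤ (z 1 + 0) ^ 2 / 2 + 1 / 2 + P (z 0) :=
    fun z => add_nonneg (by positivity) (P0 _)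
  have cA : ConvexOn ℝ univ A := conv_two ((conv_coord 0 ca₁).add cb₁) ((conv_coord 0 ca₂).add cb₂)
    (fun z => add_nonneg (a₁0 _) (b₁0 z)) (fun z => add_nonneg (a₂0 _) (b₂0 z))
  have cB : ConvexOn ℝ univ B := conv_two ((conv_coord 0 ca₁).add cb₂) ((conv_coord 0 ca₂).add cb₁)
    (fun z => add_nonneg (a₁0 _) (b₂0 z)) (fun z => add_nonneg (a₂0 _) (b₁0 z))
  have hAB : ∀ z, A z - B z = 2 * (a₁ (z 0) - a₂ (z 0)) * (z 1 - (P (z 0) - Q (z 0))) := by
    intro z; simp only [hA, hB]; ring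
  have tA : Continuous A := continuousOn_univ.mp (cA.continuousOn isOpen_univ)
  have tB : Continuous B := continuousOn_univ.mp (cB.continuousOn isOpen_univ)
  have tP : Continuous P := continuousOn_univ.mp (cP.continuousOn isOpen_univ)
  have tQ : Continuous Q := continuousOn_univ.mp (cQ.continuousOn isOpen_univ)
  have Kc : IsClosed K := by
    rw [hK]
    exact (hS.preimage (by fun_prop)).inter (isClosed_eq (by fun_prop) (by fun_prop))
  refine ⟨fun z => min (A z) (B z), tA.min tB, fun x hx => ?_, fun hconv => ?_⟩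
  · have ev : (∀ᶠ z in 𝓝 x, A z ≤ B z) ∨ (∀ᶠ z in 𝓝 x, B z ≤ A z) := by
      by_cases hx0 : x 0 ∈ Icc a b
      · have hne : x 1 - (P (x 0) - Q (x 0)) ≠ 0 := by
          intro h0
          apply hx
          rw [hK]
          exact ⟨hb hx0, by rw [hPQ _ hx0]; linarith⟩
        have tc : Continuous (fun z : EuclideanSpace ℝ (Fin 2) => z 1 - (P (z 0) - Q (z 0))) := by
          fun_prop
        rcases lt_or_gt_of_ne hne with hl | hl
        · left
          filter_upwards [tc.continuousAt.eventually_lt continuousAt_const hl] with z hz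
          have := mul_nonneg (φ0 (z 0)) (neg_nonneg.mpr hz.le)
          nlinarith [hAB z]
        · right
          filter_upwards [continuousAt_const.eventually_lt tc.continuousAt hl] with z hz
          have := mul_nonneg (φ0 (z 0)) hz.le
          nlinarith [hAB z]
      · left
        have tc : Continuous (fun z : EuclideanSpace ℝ (Fin 2) => z 0) := by fun_prop
        filter_upwards [tc.continuousAt.eventually (isClosed_Icc.isOpen_compl.mem_nhds hx0)] with z hz
        have := hAB z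
        rw [φz _ hz] at this
        linarith
    have evK : ∀ᶠ z in 𝓝 x, z ∈ Kᶜ := Kc.isOpen_compl.mem_nhds hx
    rcases ev with ev | ev
    · obtain ⟨r, hr, hsub⟩ := Metric.mem_nhds_iff.mp (ev.and evK)
      refine ⟨Metric.ball x r, Metric.isOpen_ball, convex_ball _ _, Metric.mem_ball_self hr,
        fun z hz => (hsub hz).2, ?_⟩
      exact (cA.subset (subset_univ _) (convex_ball _ _)).congr
        fun z hz => (min_eq_left (hsub hz).1).symm
    · obtain ⟨r, hr, hsub⟩ := Metric.mem_nhds_iff.mp (ev.and evK)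
      refine ⟨Metric.ball x r, Metric.isOpen_ball, convex_ball _ _, Metric.mem_ball_self hr,
        fun z hz => (hsub hz).2, ?_⟩
      exact (cB.subset (subset_univ _) (convex_ball _ _)).congr
        fun z hz => (min_eq_right (hsub hz).1).symm
  · set y₀ := P m - Q m with hy₀
    have p0 : ∀ t : ℝ, pt (m, t) 0 = m := fun t => by simp [pt]
    have p1 : ∀ t : ℝ, pt (m, t) 1 = t := fun t => by simp [pt]
    set β : ℝ → ℝ := fun t => (a₁ m + ((t + 0) ^ 2 / 2 + 1 / 2 + P m)) ^ 2 +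
      (a₂ m + ((t + 1) ^ 2 / 2 + Q m)) ^ 2 with hβ
    have eB : ∀ t, B (pt (m, t)) = β t := fun t => by simp only [hB, hβ, p0, p1]
    have eA : ∀ t, A (pt (m, t)) = β t + (b - a) * (t - y₀) := fun t => by
      have := hAB (pt (m, t))
      rw [p0, p1, φm, eB] at this
      linarith
    have dβ : Differentiable ℝ β := by simp only [hβ]; fun_prop
    have mid : ∀ s : ℝ, 0 ≤ β (y₀ + s) + β (y₀ - s) - (b - a) * s - 2 * β y₀ := by
      intro s
      have := hconv.2 (mem_univ (pt (m, y₀ + s))) (mem_univ (pt (m, y₀ - s)))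
        (show (0:ℝ) ≤ 1 / 2 by norm_num) (show (0:ℝ) ≤ 1 / 2 by norm_num) (by norm_num)
      rw [pt_comb] at this
      have e : ((1 / 2 * m + 1 / 2 * m, 1 / 2 * (y₀ + s) + 1 / 2 * (y₀ - s)) : ℝ × ℝ) = (m, y₀) := by
        ext <;> simp only <;> ring
      simp only [e, smul_eq_mul, eA, eB, sub_self, mul_zero, add_zero, min_self] at this
      have m1 := min_le_right (β (y₀ + s) + (b - a) * (y₀ + s - y₀)) (β (y₀ + s))
      have m2 := min_le_left (β (y₀ - s) + (b - a) * (y₀ - s - y₀)) (β (y₀ - s))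
      nlinarith
    have d1 : HasDerivAt (fun s => β (y₀ + s)) (deriv β y₀) 0 := by
      have : HasDerivAt β (deriv β y₀) (y₀ + 0) := by rw [add_zero]; exact (dβ y₀).hasDerivAt
      exact this.comp_const_add y₀ 0
    have d2 : HasDerivAt (fun s => β (y₀ - s)) (-deriv β y₀) 0 := by
      have : HasDerivAt β (deriv β y₀) (y₀ - 0) := by rw [sub_zero]; exact (dβ y₀).hasDerivAt
      exact this.comp_const_sub y₀ 0
    have d3 : HasDerivAt (fun s => β (y₀ + s) + β (y₀ - s) - (b - a) * s - 2 * β y₀)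
        (deriv β y₀ + -deriv β y₀ - (b - a) * 1) 0 :=
      ((d1.fun_add d2).fun_sub ((hasDerivAt_id' 0).const_mul (b - a))).sub_const _
    have hmin : IsLocalMin (fun s => β (y₀ + s) + β (y₀ - s) - (b - a) * s - 2 * β y₀) 0 := by
      apply Filter.Eventually.of_forall
      intro s
      have := mid s
      simp only [add_zero, sub_zero, mul_zero]
      linarith
    have := hmin.hasDerivAt_eq_zero d3
    linarith

end Pool.Agent.MP_ee90f2_an.S80
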