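import Mathlib
import Pool.Agent.MP_ee90f2_an.S80.Nec

namespace Pool.Agent.MP_ee90f2_an.S80

open Set Filter Topology MeasureTheory

theorem criterion (h : ℝ → ℝ) (L : NNReal) (hh : LipschitzWith L h) (S : Set ℝ) (hS : IsClosed S)
    (K : Set (EuclideanSpace ℝ (Fin 2))) (hK : K = {z | z 0 ∈ S ∧ z 1 = h (z 0)}) :
    (∀ f : EuclideanSpace ℝ (Fin 2) → ℝ, Continuous f →
        (∀ x ∈ Kᶜ, ∃ V : Set (EuclideanSpace ℝ (Fin 2)),
          IsOpen V ∧ Convex ℝ V ∧ x ∈ V ∧ V ⊆ Kᶜ ∧ ConvexOn ℝ V f) →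
        ConvexOn ℝ univ f) ↔ NDC S h := by
  constructor
  · rintro hrem a b hab hb ⟨P, Q, hP, hQ, hPQ⟩
    obtain ⟨f, hf, hloc, hn⟩ := not_removable hh.continuous hS (a := (2 * a + b) / 3)
      (b := (a + 2 * b) / 3) (by linarith) ((Icc_subset_Icc (by linarith) (by linarith)).trans hb)
      (exists_dc hP hQ hPQ (by linarith) (by linarith) (by linarith)) K hK
    exact hn (hrem f hf hloc)
  · intro hn f hf hloc
    have hKK : K = pt '' Gr S h := by
      rw [hK]
      ext z
      constructor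
      · intro hz
        exact ⟨(z 0, z 1), hz, pt_self z⟩
      · rintro ⟨p, hp, rfl⟩
        simpa [pt, Gr] using hp
    rw [hKK] at hloc
    have hseg := segConv_of_local (Gr S h) f hf hloc
    refine ⟨convex_univ, fun P _ Q _ a b ha hb hab => ?_⟩
    have := lip_removable (f := fun p => f (pt p)) (hf.comp continuous_pt) hS hh hn hseg
      (P 0) (P 1) (Q 0) (Q 1) b ⟨hb, by linarith⟩
    simp only [pt_self] at this
    have ha' : a = 1 - b := by linarith
    have e : a • P + b • Q = pt (P 0 + b * (Q 0 - P 0), P 1 + b * (Q 1 - P 1)) := by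
      conv_lhs => rw [← pt_self P, ← pt_self Q, pt_comb]
      refine congrArg pt ?_
      ext <;> simp only <;> rw [ha'] <;> ring
    rw [e, ha']
    simpa using this

end Pool.Agent.MP_ee90f2_an.S80
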